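import Mathlib
import Pool.Agent.Lib.MP_d57286_nt.Defs
import Pool.Agent.Lib.MP_d57286_nt.Main

namespace Pool.Agent.Results.MP_d57286_nt.Q1

open Pool.Agent.Lib.MP_d57286_nt

theorem result (p : ℕ) (hp : p.Prime) (h12 : p % 12 = 7) (x y : ℤ)
    (hxy : (p : ℤ) = x ^ 2 + 3 * y ^ 2) (hy : y % 4 = 1) :
    (p : ℤ) ^ 2 ∣
      ((∑ k ∈ Finset.range p, (lucasU k : ℚ) / 64 ^ k * ((2 * k).choose k : ℚ) ^ 2)
        - (2 * (y : ℚ) - (p : ℚ) / (6 * (y : ℚ)))).num := by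
  have : Fact p.Prime := ⟨hp⟩
  apply dvd_num_of_dv
  push_cast
  exact Q1_padic (m := p / 12) (by omega) hxy.symm hy

end Pool.Agent.Results.MP_d57286_nt.Q1
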